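import Pool.Agent.Q96.RotMain

/-!
# First approach times of two rotation orbits to an interval: Q2 is false

With the conventions of the problem file, `μ(E¹_ε) - μ(E²_ε)` does not tend to `0` as `ε → 0⁺`:
its lower limit is at least `π² / 6 > 0`.
-/

namespace Pool.Agent.Results.MP_a4d326_an.RotationHittingTimes

open MeasureTheory Set Filter Topology

/-- `x mod 2π`: the unique representative of `x` in `[0, 2π)`. -/
noncomputable def md (x : ℝ) : ℝ := toIcoMod Real.two_pi_pos 0 x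

/-- `τ₁(a,b) = min {n ≥ 1 : (n a - b) mod 2π < ε}`, with `min ∅ = ∞`. -/
noncomputable def tau1 (ε a b : ℝ) : ℕ∞ :=
  ⨅ n ∈ {n : ℕ | 1 ≤ n ∧ md (n * a - b) < ε}, (n : ℕ∞)

/-- `τ₂(a,b) = min {n ≥ 1 : (n a - n b) mod 2π < ε}`, with `min ∅ = ∞`. -/
noncomputable def tau2 (ε a b : ℝ) : ℕ∞ :=
  ⨅ n ∈ {n : ℕ | 1 ≤ n ∧ md (n * a - n * b) < ε}, (n : ℕ∞)

/-- `E = [0, 2π)²`. -/
def E : Set (ℝ × ℝ) := Ico 0 (2 * Real.pi) ×ˢ Ico 0 (2 * Real.pi)

/-- `E¹_ε = {(a,b) ∈ E : τ₁(a,b) < τ₂(a,b)}`. -/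
def E1 (ε : ℝ) : Set (ℝ × ℝ) := {p | p ∈ E ∧ tau1 ε p.1 p.2 < tau2 ε p.1 p.2}

/-- `E²_ε = E \ E¹_ε`. -/
def E2 (ε : ℝ) : Set (ℝ × ℝ) := E \ E1 ε

open Q96.Rot

theorem two_pi_pos' : (0 : ℝ) < 2 * Real.pi := Real.two_pi_pos

theorem md_lt (ε x : ℝ) : md x < ε ↔ Int.fract (x / (2 * Real.pi)) < ε / (2 * Real.pi) := by
  unfold md
  rw [toIcoMod_eq_fract_mul, lt_div_iff₀ two_pi_pos']

/-- the winning set inside `E` -/
def W (ε : ℝ) : Set (ℝ × ℝ) :=
  {p | p ∈ E ∧ Win (ε / (2 * Real.pi)) (p.1 / (2 * Real.pi)) ((p.1 - p.2) / (2 * Real.pi))}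

theorem W_sub (ε : ℝ) : W ε ⊆ E1 ε := by
  rintro ⟨a, b⟩ ⟨hE, k, hk1, hk2, hk3⟩
  refine ⟨hE, ?_⟩
  simp only at hk2 hk3 ⊢
  have hpi : (2 * Real.pi) ≠ 0 := two_pi_pos'.ne'
  have h1 : tau1 ε a b ≤ ((k + 1 : ℕ) : ℕ∞) := by
    unfold tau1
    refine iInf₂_le (k + 1) ⟨by omega, ?_⟩
    rw [md_lt]
    have : (((k + 1 : ℕ) : ℝ) * a - b) / (2 * Real.pi) =
        k * (a / (2 * Real.pi)) + (a - b) / (2 * Real.pi) := by
      push_cast; field_simp; ring
    rw [this]
    exact hk2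
  have h2 : ((k + 2 : ℕ) : ℕ∞) ≤ tau2 ε a b := by
    unfold tau2
    refine le_iInf₂ (fun n hn => ?_)
    obtain ⟨hn1, hn2⟩ := hn
    rw [md_lt] at hn2
    have : ((n : ℝ) * a - n * b) / (2 * Real.pi) = n * ((a - b) / (2 * Real.pi)) := by
      field_simp
    rw [this] at hn2
    by_contra h
    rw [not_le, Nat.cast_lt] at h
    exact absurd (hk3 n hn1 (by omega)) (not_le.2 hn2)
  refine lt_of_le_of_lt h1 (lt_of_lt_of_le ?_ h2)
  exact_mod_cast Nat.lt_succ_self (k + 1)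

theorem sub_W (ε : ℝ) : E1 ε ⊆ W ε := by
  rintro ⟨a, b⟩ ⟨hE, h⟩
  refine ⟨hE, ?_⟩
  simp only at h ⊢
  have hpi : (2 * Real.pi) ≠ 0 := two_pi_pos'.ne'
  have h1 : ∃ n : ℕ, (1 ≤ n ∧ md (n * a - b) < ε) ∧ (n : ℕ∞) < tau2 ε a b := by
    by_contra hc
    push Not at hc
    refine absurd h (not_lt.2 ?_)
    conv_rhs => unfold tau1
    exact le_iInf₂ (fun n hn => hc n hn)
  obtain ⟨n, ⟨hn1, hn2⟩, hn3⟩ := h1
  have h2 : ∀ m : ℕ, 1 ≤ m → m ≤ n →
      ε / (2 * Real.pi) ≤ Int.fract (m * ((a - b) / (2 * Real.pi))) := by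
    intro m hm1 hm2
    by_contra hc
    rw [not_le] at hc
    have h3 : tau2 ε a b ≤ (m : ℕ∞) := by
      unfold tau2
      refine iInf₂_le m ⟨hm1, ?_⟩
      rw [md_lt]
      have : ((m : ℝ) * a - m * b) / (2 * Real.pi) = m * ((a - b) / (2 * Real.pi)) := by
        field_simp
      rw [this]
      exact hc
    have h4 := lt_of_lt_of_le hn3 h3
    rw [Nat.cast_lt] at h4
    omega
  rw [md_lt] at hn2
  have h5 : n ≠ 1 := by
    rintro rfl
    have h6 := h2 1 le_rfl le_rfl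
    push_cast at h6 hn2
    rw [one_mul] at h6 hn2
    linarith
  refine ⟨n - 1, by omega, ?_, fun m hm1 hm2 => h2 m hm1 (by omega)⟩
  have : (((n - 1 : ℕ) : ℝ)) * (a / (2 * Real.pi)) + (a - b) / (2 * Real.pi) =
      ((n : ℝ) * a - b) / (2 * Real.pi) := by
    rw [Nat.cast_sub hn1]; push_cast; field_simp; ring
  rw [this]
  exact hn2

theorem E1_eq (ε : ℝ) : E1 ε = W ε := subset_antisymm (sub_W ε) (W_sub ε)

theorem E_meas : MeasurableSet E := measurableSet_Ico.prod measurableSet_Ico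

theorem W_eq (ε : ℝ) : W ε = E ∩ (fun p : ℝ × ℝ => (p.1 / (2 * Real.pi),
    (p.1 - p.2) / (2 * Real.pi))) ⁻¹' {z : ℝ × ℝ | Win (ε / (2 * Real.pi)) z.1 z.2} := by
  ext p; rfl

theorem map_meas : Measurable (fun p : ℝ × ℝ => (p.1 / (2 * Real.pi),
    (p.1 - p.2) / (2 * Real.pi))) :=
  (measurable_fst.div_const _).prodMk ((measurable_fst.sub measurable_snd).div_const _)

theorem W_meas (ε : ℝ) : MeasurableSet (W ε) := by
  rw [W_eq]
  exact E_meas.inter (map_meas (Win_measSet _))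

theorem E_vol : volume E = ENNReal.ofReal (2 * Real.pi) * ENNReal.ofReal (2 * Real.pi) := by
  unfold E
  rw [Measure.volume_eq_prod, Measure.prod_prod, Real.volume_Ico, sub_zero]

theorem E_vol_real : volume.real E = 4 * Real.pi ^ 2 := by
  unfold Measure.real
  rw [E_vol, ENNReal.toReal_mul, ENNReal.toReal_ofReal two_pi_pos'.le]
  ring

theorem E_fin : volume E ≠ ⊤ := by
  rw [E_vol]; exact ENNReal.mul_ne_top ENNReal.ofReal_ne_top ENNReal.ofReal_ne_top

theorem F_per (e a : ℝ) : Function.Periodic (F e a) 1 := by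
  intro c
  have h : Win e a (c + 1) ↔ Win e a c := by
    have h1 : ∀ k : ℕ, Int.fract (k * a + (c + 1)) = Int.fract (k * a + c) := by
      intro k
      rw [← add_assoc, Int.fract_add_one]
    have h2 : ∀ m : ℕ, Int.fract ((m : ℝ) * (c + 1)) = Int.fract (m * c) := by
      intro m
      rw [mul_add, mul_one, Int.fract_add_natCast]
    unfold Win
    simp only [h1, h2]
  unfold F
  by_cases hc : Win e a c
  · rw [if_pos hc, if_pos (h.2 hc)]
  · rw [if_neg hc, if_neg (fun h' => hc (h.1 h'))]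

theorem W_vol (ε : ℝ) : volume.real (W ε) = 4 * Real.pi ^ 2 * P (ε / (2 * Real.pi)) := by
  set e := ε / (2 * Real.pi) with he
  have hpi : (2 * Real.pi) ≠ 0 := two_pi_pos'.ne'
  set G : ℝ × ℝ → ℝ := fun p => F e (p.1 / (2 * Real.pi)) ((p.1 - p.2) / (2 * Real.pi)) with hG
  have hGm : Measurable G := (F_meas e).comp map_meas
  have h1 : volume.real (W ε) = ∫ p in E, G p := by
    have h2 : G = ((fun p : ℝ × ℝ => (p.1 / (2 * Real.pi),
        (p.1 - p.2) / (2 * Real.pi))) ⁻¹' {z : ℝ × ℝ | Win e z.1 z.2}).indicator 1 := by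
      funext p
      by_cases h : Win e (p.1 / (2 * Real.pi)) ((p.1 - p.2) / (2 * Real.pi))
      · rw [indicator_of_mem (by exact h)]
        simp only [hG, F, if_pos h, Pi.one_apply]
      · rw [indicator_of_notMem (by exact h)]
        simp only [hG, F, if_neg h]
    rw [h2, integral_indicator_one (map_meas (Win_measSet _)),
      measureReal_restrict_apply (map_meas (Win_measSet _)), W_eq, inter_comm]
  rw [h1]
  unfold E
  rw [Measure.volume_eq_prod, setIntegral_prod]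
  · have h2 : ∀ a : ℝ, ∫ b in Ico 0 (2 * Real.pi), G (a, b) =
        2 * Real.pi * ∫ c in (0 : ℝ)..1, F e (a / (2 * Real.pi)) c := by
      intro a
      rw [integral_Ico_eq_integral_Ioc, ← intervalIntegral.integral_of_le two_pi_pos'.le]
      have h3 : ∀ b : ℝ, G (a, b) = F e (a / (2 * Real.pi)) (a / (2 * Real.pi) -
          b / (2 * Real.pi)) := by
        intro b; simp only [hG, sub_div]
      simp only [h3]
      rw [intervalIntegral.integral_comp_sub_div _ hpi, smul_eq_mul, div_self hpi, zero_div,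
        sub_zero]
      congr 1
      have h4 := (F_per e (a / (2 * Real.pi))).intervalIntegral_add_eq
        (a / (2 * Real.pi) - 1) 0
      rw [zero_add] at h4
      rw [← h4]
      congr 1
      ring
    simp only [h2]
    rw [integral_Ico_eq_integral_Ioc, ← intervalIntegral.integral_of_le two_pi_pos'.le,
      intervalIntegral.integral_const_mul,
      intervalIntegral.integral_comp_div (fun x => ∫ c in (0 : ℝ)..1, F e x c) hpi,
      smul_eq_mul, div_self hpi, zero_div]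
    unfold P
    rw [fub (F := fun z => F e z.1 z.2) (F_meas e) (C := 1) (fun z => F_abs e _ _)]
    ring
  · refine Measure.integrableOn_of_bounded (M := 1) ?_ hGm.aestronglyMeasurable ?_
    · have := E_fin
      unfold E at this
      rwa [Measure.volume_eq_prod] at this
    · refine Eventually.of_forall (fun p => ?_)
      exact F_abs e _ _

theorem main_ineq (ε : ℝ) : 4 * Real.pi ^ 2 * (2 * P (ε / (2 * Real.pi)) - 1) ≤
    volume.real (E1 ε) - volume.real (E2 ε) := by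
  have h1 : volume.real (W ε) ≤ volume.real (E1 ε) :=
    measureReal_mono (W_sub ε) (measure_ne_top_of_subset (fun p hp => hp.1) E_fin)
  have h2 : volume.real (E2 ε) ≤ volume.real (E \ W ε) :=
    measureReal_mono (sdiff_subset_sdiff_right (W_sub ε))
      (measure_ne_top_of_subset sdiff_subset E_fin)
  have hWE : W ε ⊆ E := fun p hp => hp.1
  have h3 : volume.real (E \ W ε) = volume.real E - volume.real (W ε) :=
    measureReal_sdiff hWE (W_meas ε) E_fin
  rw [h3, E_vol_real] at h2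
  rw [W_vol] at h1 h2
  linarith

theorem e_tendsto : Tendsto (fun ε : ℝ => ε / (2 * Real.pi)) (𝓝[>] 0) (𝓝[>] 0) := by
  refine tendsto_nhdsWithin_iff.2 ⟨?_, ?_⟩
  · have h1 : Tendsto (fun ε : ℝ => ε / (2 * Real.pi)) (𝓝[>] 0) (𝓝 (0 / (2 * Real.pi))) :=
      (tendsto_id.mono_left nhdsWithin_le_nhds).div_const _
    rwa [zero_div] at h1
  · filter_upwards [self_mem_nhdsWithin] with ε hε
    exact div_pos hε two_pi_pos'

/-- **Main result.** The lower limit of `μ(E¹_ε) - μ(E²_ε)` as `ε → 0⁺` is at least `π²/6`. In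
particular `μ(E¹_ε) - μ(E²_ε)` does not tend to `0`, `μ(E¹_ε)/μ(E)` does not tend to `1/2` (Q2
is disproved, in the negated form of the problem file and in the stronger form for all small
`ε`), and for all sufficiently small `ε` the set `E¹_ε` has the greater measure. -/
theorem result :
    (∀ ε : ℝ, MeasurableSet (E1 ε)) ∧
    (∀ η : ℝ, 0 < η → ∃ ε₀ : ℝ, 0 < ε₀ ∧ ∀ ε : ℝ, 0 < ε → ε < ε₀ →
      Real.pi ^ 2 / 6 - η ≤ volume.real (E1 ε) - volume.real (E2 ε)) ∧
    (∃ δ : ℝ, 0 < δ ∧ ∃ ε₀ : ℝ, 0 < ε₀ ∧ ∀ ε : ℝ, 0 < ε → ε < ε₀ →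
      δ ≤ volume.real (E1 ε) - volume.real (E2 ε)) ∧
    ¬ Tendsto (fun ε : ℝ => volume.real (E1 ε) - volume.real (E2 ε)) (𝓝[>] 0) (𝓝 0) ∧
    ¬ Tendsto (fun ε : ℝ => volume.real (E1 ε) / volume.real E) (𝓝[>] 0) (𝓝 (1 / 2)) := by
  have key : ∀ η : ℝ, 0 < η → ∃ ε₀ : ℝ, 0 < ε₀ ∧ ∀ ε : ℝ, 0 < ε → ε < ε₀ →
      Real.pi ^ 2 / 6 - η ≤ volume.real (E1 ε) - volume.real (E2 ε) := by
    intro η hη
    have hpi := Real.pi_pos
    have h1 := e_tendsto.eventually (P_liminf (η / (8 * Real.pi ^ 2)) (by positivity))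
    rw [eventually_nhdsWithin_iff, Metric.eventually_nhds_iff] at h1
    obtain ⟨ε₀, hε₀, h2⟩ := h1
    refine ⟨ε₀, hε₀, fun ε h3 h4 => ?_⟩
    have h5 := h2 (y := ε) (by rw [Real.dist_eq, sub_zero, abs_of_pos h3]; exact h4) h3
    refine le_trans ?_ (main_ineq ε)
    have h6 : 4 * Real.pi ^ 2 * (2 * (25 / 48 - η / (8 * Real.pi ^ 2)) - 1) =
        Real.pi ^ 2 / 6 - η := by
      field_simp; ring
    rw [← h6]
    refine mul_le_mul_of_nonneg_left ?_ (by positivity)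
    linarith
  have hδ : (1 : ℝ) ≤ Real.pi ^ 2 / 6 - Real.pi ^ 2 / 18 := by
    have := Real.pi_gt_three
    nlinarith
  obtain ⟨ε₀, hε₀, h1⟩ := key (Real.pi ^ 2 / 18) (by have := Real.pi_pos; positivity)
  have h2 : ∀ ε : ℝ, 0 < ε → ε < ε₀ → 1 ≤ volume.real (E1 ε) - volume.real (E2 ε) :=
    fun ε h3 h4 => le_trans hδ (h1 ε h3 h4)
  have hev : ∀ᶠ ε : ℝ in 𝓝[>] 0, 1 ≤ volume.real (E1 ε) - volume.real (E2 ε) := by
    filter_upwards [Ioo_mem_nhdsGT hε₀] with ε hε
    exact h2 ε hε.1 hε.2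
  have h3 : ¬ Tendsto (fun ε : ℝ => volume.real (E1 ε) - volume.real (E2 ε)) (𝓝[>] 0)
      (𝓝 0) := by
    intro h
    have := ge_of_tendsto h hev
    linarith
  refine ⟨fun ε => by rw [E1_eq]; exact W_meas ε, key, ⟨1, one_pos, ε₀, hε₀, h2⟩, h3, ?_⟩
  intro h
  have hE1 : ∀ ε, volume.real (E1 ε) ≤ volume.real E := fun ε =>
    measureReal_mono (fun p hp => hp.1) E_fin
  have hsum : ∀ ε, volume.real E ≤ volume.real (E1 ε) + volume.real (E2 ε) := by
    intro ε
    have h4 : E ⊆ E1 ε ∪ E2 ε := by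
      intro p hp
      by_cases h5 : p ∈ E1 ε
      · exact Or.inl h5
      · exact Or.inr ⟨hp, h5⟩
    exact le_trans (measureReal_mono h4 (measure_union_ne_top
      (measure_ne_top_of_subset (fun p hp => hp.1) E_fin)
      (measure_ne_top_of_subset sdiff_subset E_fin))) (measureReal_union_le _ _)
  have hEpos : 0 < volume.real E := by
    rw [E_vol_real]; have := Real.pi_pos; positivity
  have hev2 : ∀ᶠ ε : ℝ in 𝓝[>] 0, 1 / 2 + 1 / (2 * volume.real E) ≤
      volume.real (E1 ε) / volume.real E := by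
    filter_upwards [hev] with ε hε
    rw [le_div_iff₀ hEpos]
    have := hsum ε
    have h6 : (1 / 2 + 1 / (2 * volume.real E)) * volume.real E = volume.real E / 2 + 1 / 2 := by
      field_simp
    rw [h6]
    linarith
  have h7 := ge_of_tendsto h hev2
  have h8 : 0 < 1 / (2 * volume.real E) := by positivity
  linarith

end Pool.Agent.Results.MP_a4d326_an.RotationHittingTimes
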